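import Mathlib

/-!
# Finite packings of congruent balls in which every ball has seven neighbours

In a finite packing of balls of radius `r` in `ℝ³` in which every ball touches at least seven others
there is, for every direction `u`, a ball with centre in the top plane (the supporting plane with
normal `u` of the set of centres) that touches a ball with centre strictly below this plane but at
distance at most `√2 r` from it.
-/

set_option autoImplicit false

namespace Pool.Agent.Results.MP_e4ee32_co.TopLayerGap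

open Finset

/-- at most three unit vectors with pairwise angles at least 60 degrees in a half-open half-plane -/
theorem side {ι : Type*} (S : Finset ι) (x y : ι → ℝ)
    (h1 : ∀ i ∈ S, x i ^ 2 + y i ^ 2 = 1)
    (h2 : ∀ i ∈ S, x i ≤ 0) (h3 : ∀ i ∈ S, x i = 0 → y i ≤ 0)
    (h4 : ∀ i ∈ S, ∀ j ∈ S, i ≠ j → x i * x j + y i * y j ≤ 1 / 2) : S.card ≤ 3 := by
  classical
  set θ : ι → ℝ := fun i => Real.arcsin (-(y i)) with hθ
  have hpi := Real.pi_pos
  have hrange : ∀ i ∈ S, -(Real.pi / 2) < θ i ∧ θ i ≤ Real.pi / 2 := by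
    intro i hi
    refine ⟨?_, Real.arcsin_le_pi_div_two _⟩
    refine lt_of_le_of_ne (Real.neg_pi_div_two_le_arcsin _) ?_
    intro h
    have h' : -(y i) ≤ -1 := Real.arcsin_eq_neg_pi_div_two.mp h.symm
    have hy : 1 ≤ y i := by linarith
    have hx0 : x i = 0 := by nlinarith [h1 i hi, sq_nonneg (x i)]
    have := h3 i hi hx0
    linarith
  have hcs : ∀ i ∈ S, Real.sin (θ i) = -(y i) ∧ Real.cos (θ i) = -(x i) := by
    intro i hi
    have e := h1 i hi
    have hy1 : -1 ≤ -(y i) := by nlinarith [sq_nonneg (x i)]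
    have hy2 : -(y i) ≤ 1 := by nlinarith [sq_nonneg (x i)]
    refine ⟨Real.sin_arcsin hy1 hy2, ?_⟩
    rw [hθ]
    simp only
    rw [Real.cos_arcsin]
    have : 1 - (-(y i)) ^ 2 = (-(x i)) ^ 2 := by linarith
    rw [this, Real.sqrt_sq (by have := h2 i hi; linarith)]
  have hmaps : ∀ i ∈ S, ⌈(θ i + Real.pi / 2) / (Real.pi / 3)⌉ ∈ Finset.Icc (1 : ℤ) 3 := by
    intro i hi
    obtain ⟨a, b⟩ := hrange i hi
    rw [Finset.mem_Icc]
    constructor
    · have : 0 < (θ i + Real.pi / 2) / (Real.pi / 3) := by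
        apply div_pos <;> linarith
      have := Int.ceil_pos.mpr this
      omega
    · apply Int.ceil_le.mpr
      rw [div_le_iff₀ (by linarith)]
      push_cast
      linarith
  have hinj : ∀ i ∈ S, ∀ j ∈ S, ⌈(θ i + Real.pi / 2) / (Real.pi / 3)⌉ =
      ⌈(θ j + Real.pi / 2) / (Real.pi / 3)⌉ → i = j := by
    intro i hi j hj hij
    by_contra hne
    have hc := h4 i hi j hj hne
    have hcos : Real.cos (θ i - θ j) ≤ 1 / 2 := by
      rw [Real.cos_sub, (hcs i hi).1, (hcs i hi).2, (hcs j hj).1, (hcs j hj).2]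
      linarith
    have l1 := Int.le_ceil ((θ i + Real.pi / 2) / (Real.pi / 3))
    have l2 := Int.le_ceil ((θ j + Real.pi / 2) / (Real.pi / 3))
    have l3 := Int.ceil_lt_add_one ((θ i + Real.pi / 2) / (Real.pi / 3))
    have l4 := Int.ceil_lt_add_one ((θ j + Real.pi / 2) / (Real.pi / 3))
    rw [hij] at l1 l3
    have k1 : (θ i + Real.pi / 2) / (Real.pi / 3) - (θ j + Real.pi / 2) / (Real.pi / 3) < 1 := by
      linarith
    have k2 : (θ j + Real.pi / 2) / (Real.pi / 3) - (θ i + Real.pi / 2) / (Real.pi / 3) < 1 := by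
      linarith
    have p3 : 0 < Real.pi / 3 := by linarith
    rw [← sub_div, div_lt_one p3] at k1 k2
    have habs : |θ i - θ j| < Real.pi / 3 := by
      rw [abs_lt]
      constructor <;> linarith
    have : Real.cos (Real.pi / 3) < Real.cos |θ i - θ j| :=
      Real.cos_lt_cos_of_nonneg_of_le_pi (abs_nonneg _) (by linarith) habs
    rw [Real.cos_pi_div_three, Real.cos_abs] at this
    linarith
  have := Finset.card_le_card_of_injOn (fun i => ⌈(θ i + Real.pi / 2) / (Real.pi / 3)⌉)
    (s := S) (t := Finset.Icc (1 : ℤ) 3) (fun i hi => hmaps i hi)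
    (fun i hi j hj h => hinj i hi j hj h)
  simpa using this

/-- at most three vectors of the plane with pairwise negative inner products -/
theorem below {ι : Type*} (S : Finset ι) (x y : ι → ℝ)
    (h4 : ∀ i ∈ S, ∀ j ∈ S, i ≠ j → x i * x j + y i * y j < 0) : S.card ≤ 3 := by
  classical
  by_contra hc
  push Not at hc
  obtain ⟨d, hd⟩ : S.Nonempty := Finset.card_pos.mp (by omega)
  have h2 : 2 < (S.erase d).card := by
    rw [Finset.card_erase_of_mem hd]; omega
  obtain ⟨a, b, c, ha, hb, hc', hab, hac, hbc⟩ := Finset.two_lt_card_iff.mp h2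
  have ha' := Finset.mem_erase.mp ha
  have hb' := Finset.mem_erase.mp hb
  have hc'' := Finset.mem_erase.mp hc'
  have ea := h4 a ha'.2 d hd ha'.1
  have eb := h4 b hb'.2 d hd hb'.1
  have ec := h4 c hc''.2 d hd hc''.1
  have fab := h4 a ha'.2 b hb'.2 hab
  have fac := h4 a ha'.2 c hc''.2 hac
  have fbc := h4 b hb'.2 c hc''.2 hbc
  have hD : 0 < x d ^ 2 + y d ^ 2 := by
    rcases eq_or_ne (x d ^ 2 + y d ^ 2) 0 with h0 | h0
    · have hx : x d = 0 := by nlinarith [sq_nonneg (x d), sq_nonneg (y d)]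
      have hy : y d = 0 := by nlinarith [sq_nonneg (x d), sq_nonneg (y d)]
      rw [hx, hy] at ea
      simp at ea
    · exact lt_of_le_of_ne (by positivity) (Ne.symm h0)
  -- cross products
  have key : ∀ i j : ι, (x i * x d + y i * y d) < 0 → (x j * x d + y j * y d) < 0 →
      x i * x j + y i * y j < 0 → (x d * y i - y d * x i) * (x d * y j - y d * x j) < 0 := by
    intro i j hi hj hij
    have e : (x d ^ 2 + y d ^ 2) * (x i * x j + y i * y j) =
        (x i * x d + y i * y d) * (x j * x d + y j * y d)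
          + (x d * y i - y d * x i) * (x d * y j - y d * x j) := by ring
    have p := mul_pos_of_neg_of_neg hi hj
    have q := mul_neg_of_pos_of_neg hD hij
    linarith
  have g1 := key a b ea eb fab
  have g2 := key a c ea ec fac
  have g3 := key b c eb ec fbc
  set A := x d * y a - y d * x a
  set B := x d * y b - y d * x b
  set C := x d * y c - y d * x c
  have : 0 < (A * B) * (A * C) := mul_pos_of_neg_of_neg g1 g2
  have h' : (A * B) * (A * C) * (B * C) = (A * B * C) ^ 2 := by ring
  have h'' : (A * B) * (A * C) * (B * C) < 0 := mul_neg_of_pos_of_neg this g3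
  rw [h'] at h''
  exact absurd h'' (not_lt.mpr (sq_nonneg _))

/-- Let `P` be the (nonempty, finite) set of centres of a packing of balls of radius `r` in `ℝ³` in
which every ball touches at least seven others, and let `u` be a unit vector. Then some ball with
centre `p` in the supporting plane of `P` with outer normal `u` touches a ball whose centre `q` lies
strictly below this plane, at distance at most `√2 r` from it. -/
theorem result (r : ℝ) (hr : 0 < r) (P : Finset (EuclideanSpace ℝ (Fin 3))) (hne : P.Nonempty)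
    (hpack : ∀ p ∈ P, ∀ q ∈ P, p ≠ q → 2 * r ≤ dist p q)
    (hnb : ∀ p ∈ P, 7 ≤ (P.filter (fun q => dist p q = 2 * r)).card)
    (u : EuclideanSpace ℝ (Fin 3)) (hu : ‖u‖ = 1) :
    ∃ p ∈ P, ∃ q ∈ P, (∀ z ∈ P, inner ℝ u z ≤ inner ℝ u p) ∧ dist p q = 2 * r ∧
      (inner ℝ u q : ℝ) < inner ℝ u p ∧ (inner ℝ u p : ℝ) ≤ inner ℝ u q + √2 * r := by
  classical
  obtain ⟨b, hb⟩ : ∃ b : OrthonormalBasis (Fin 3) ℝ (EuclideanSpace ℝ (Fin 3)), b 0 = u := by
    have hon : Orthonormal ℝ (({0} : Set (Fin 3)).domRestrict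
        (fun _ : Fin 3 => u)) := by
      constructor
      · intro i; exact hu
      · intro i j hij
        exact absurd (Subsingleton.elim i j) hij
    obtain ⟨b, hb⟩ := Orthonormal.exists_orthonormalBasis_extension_of_card_eq
      (𝕜 := ℝ) (E := EuclideanSpace ℝ (Fin 3)) (ι := Fin 3) (by simp) hon
    exact ⟨b, hb 0 (Set.mem_singleton 0)⟩
  set X : Fin 3 → EuclideanSpace ℝ (Fin 3) → ℝ := fun i p => inner ℝ (b i) p with hX
  have hsub : ∀ i p q, X i (q - p) = X i q - X i p := by
    intro i p q; simp only [hX, inner_sub_right]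
  have hinn : ∀ p q : EuclideanSpace ℝ (Fin 3), (inner ℝ p q : ℝ) =
      X 0 p * X 0 q + X 1 p * X 1 q + X 2 p * X 2 q := by
    intro p q
    rw [← b.sum_inner_mul_inner p q, Fin.sum_univ_three]
    simp only [hX, real_inner_comm]
  by_contra hcon
  push Not at hcon
  obtain ⟨p0, hp0, m0⟩ := P.exists_max_image (X 0) hne
  obtain ⟨p1, hp1, m1⟩ := (P.filter (fun q => X 0 q = X 0 p0)).exists_max_image (X 1)
    ⟨p0, by simp [hp0]⟩
  rw [Finset.mem_filter] at hp1
  obtain ⟨p, hp2, m2⟩ := ((P.filter (fun q => X 0 q = X 0 p0)).filter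
    (fun q => X 1 q = X 1 p1)).exists_max_image (X 2)
    ⟨p1, by simp [hp1.1, hp1.2]⟩
  simp only [Finset.mem_filter] at hp2 m1 m2
  obtain ⟨⟨hpP, hpX0⟩, hpX1⟩ := hp2
  have t0 : ∀ q ∈ P, X 0 q ≤ X 0 p := by
    intro q hq; rw [hpX0]; exact m0 q hq
  have t1 : ∀ q ∈ P, X 0 q = X 0 p → X 1 q ≤ X 1 p := by
    intro q hq h; rw [hpX1]; exact m1 q ⟨hq, by rw [h, hpX0]⟩
  have t2 : ∀ q ∈ P, X 0 q = X 0 p → X 1 q = X 1 p → X 2 q ≤ X 2 p := by
    intro q hq h h'
    exact m2 q ⟨⟨hq, by rw [h, hpX0]⟩, by rw [h', hpX1]⟩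
  -- contacts
  set N := P.filter (fun q => dist p q = 2 * r) with hN
  have hN7 : 7 ≤ N.card := hnb p hpP
  have hinner : ∀ q ∈ N, ∀ q' ∈ N, q ≠ q' →
      (inner ℝ (q - p) (q' - p) : ℝ) ≤ 2 * r ^ 2 := by
    intro q hq q' hq' hne'
    rw [hN, Finset.mem_filter] at hq hq'
    have d := hpack q hq.1 q' hq'.1 hne'
    have n1 : ‖q - p‖ = 2 * r := by rw [← dist_eq_norm, dist_comm]; exact hq.2
    have n2 : ‖q' - p‖ = 2 * r := by rw [← dist_eq_norm, dist_comm]; exact hq'.2
    have e : ‖(q - p) - (q' - p)‖ ^ 2 = ‖q - p‖ ^ 2 - 2 * inner ℝ (q - p) (q' - p) + ‖q' - p‖ ^ 2 :=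
      norm_sub_sq_real _ _
    rw [sub_sub_sub_cancel_right, ← dist_eq_norm, n1, n2] at e
    nlinarith
  have hnorm : ∀ q ∈ N, (inner ℝ (q - p) (q - p) : ℝ) = 4 * r ^ 2 := by
    intro q hq
    rw [hN, Finset.mem_filter] at hq
    have n1 : ‖q - p‖ = 2 * r := by rw [← dist_eq_norm, dist_comm]; exact hq.2
    rw [real_inner_self_eq_norm_sq, n1]; ring
  have c1 : (N.filter (fun q => X 0 q = X 0 p)).card ≤ 3 := by
    apply side _ (fun q => X 1 (q - p) / (2 * r)) (fun q => X 2 (q - p) / (2 * r))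
    · intro q hq
      rw [Finset.mem_filter] at hq
      have e := hnorm q hq.1
      rw [hinn, hsub 0, hq.2] at e
      field_simp
      nlinarith
    · intro q hq
      rw [Finset.mem_filter] at hq
      have hqP : q ∈ P := (Finset.mem_filter.mp hq.1).1
      have := t1 q hqP hq.2
      apply div_nonpos_of_nonpos_of_nonneg
      · rw [hsub]; linarith
      · positivity
    · intro q hq h0
      rw [Finset.mem_filter] at hq
      have hqP : q ∈ P := (Finset.mem_filter.mp hq.1).1
      have h0' : X 1 (q - p) = 0 := by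
        rcases div_eq_zero_iff.mp h0 with h | h
        · exact h
        · exfalso; linarith
      rw [hsub] at h0'
      have := t2 q hqP hq.2 (by linarith)
      apply div_nonpos_of_nonpos_of_nonneg
      · rw [hsub]; linarith
      · positivity
    · intro q hq q' hq' hne'
      rw [Finset.mem_filter] at hq hq'
      have e := hinner q hq.1 q' hq'.1 hne'
      rw [hinn, hsub 0, hq.2] at e
      have : X 1 (q - p) / (2 * r) * (X 1 (q' - p) / (2 * r)) +
          X 2 (q - p) / (2 * r) * (X 2 (q' - p) / (2 * r)) =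
          (X 1 (q - p) * X 1 (q' - p) + X 2 (q - p) * X 2 (q' - p)) / (4 * r ^ 2) := by
        field_simp
        ring
      simp only [this]
      rw [div_le_iff₀ (by positivity)]
      linarith
  have c2 : (N.filter (fun q => ¬ X 0 q = X 0 p)).card ≤ 3 := by
    apply below _ (fun q => X 1 (q - p)) (fun q => X 2 (q - p))
    intro q hq q' hq' hne'
    rw [Finset.mem_filter] at hq hq'
    have hqP : q ∈ P := (Finset.mem_filter.mp hq.1).1
    have hqP' : q' ∈ P := (Finset.mem_filter.mp hq'.1).1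
    have e := hinner q hq.1 q' hq'.1 hne'
    rw [hinn] at e
    have hX0 : ∀ z, X 0 z = inner ℝ u z := by intro z; simp only [hX, hb]
    have gap : ∀ z ∈ P, dist p z = 2 * r → X 0 z ≠ X 0 p → X 0 (z - p) < -(√2 * r) := by
      intro z hz hzd hzne
      have lt : X 0 z < X 0 p := lt_of_le_of_ne (t0 z hz) hzne
      have := hcon p hpP z hz (fun w hw => by rw [← hX0, ← hX0]; exact t0 w hw)
        hzd (by rw [← hX0, ← hX0]; exact lt)
      rw [← hX0, ← hX0] at this
      rw [hsub]; linarith
    have g1 := gap q hqP (Finset.mem_filter.mp hq.1).2 hq.2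
    have g2 := gap q' hqP' (Finset.mem_filter.mp hq'.1).2 hq'.2
    have s2 : √2 * √2 = 2 := Real.mul_self_sqrt (by norm_num)
    have s0 : 0 < √2 * r := by positivity
    have : 2 * r ^ 2 < X 0 (q - p) * X 0 (q' - p) := by
      have h1 : √2 * r < -X 0 (q - p) := by linarith
      have h2 : √2 * r < -X 0 (q' - p) := by linarith
      have h3 : (√2 * r) * (√2 * r) < (-X 0 (q - p)) * (-X 0 (q' - p)) :=
        mul_lt_mul'' h1 h2 s0.le s0.le
      have h4 : (√2 * r) * (√2 * r) = 2 * r ^ 2 := by
        calc (√2 * r) * (√2 * r) = (√2 * √2) * r ^ 2 := by ring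
          _ = 2 * r ^ 2 := by rw [s2]
      nlinarith
    linarith
  have := Finset.card_filter_add_card_filter_not (s := N) (fun q => X 0 q = X 0 p)
  omega

end Pool.Agent.Results.MP_e4ee32_co.TopLayerGap
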